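import Pool.Agent.Helper52.AT.Defs

set_option autoImplicit false

namespace Pool.Agent.Helper52.AT

open Filter Topology IsLocalRing MvPolynomial

namespace LOC

section

variable {σ : Type}

/-- values of a polynomial along the orbit -/
theorem bigO_eval (y : ℕ → σ → ℂ) (ρ : ℝ) (hρ0 : 0 < ρ) (hρ1 : ρ < 1)
    (hy : ∃ C : ℝ, ∀ᶠ n in atTop, ∀ i, ‖y n i‖ ≤ C * ρ ^ n) (g : MvPolynomial σ ℂ) :
    (fun n => eval (y n) g - eval 0 g) =O[atTop] (fun n => ρ ^ n) := by
  have hρ : (fun n : ℕ => ρ ^ n) =O[atTop] (fun _ => (1 : ℝ)) := by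
    apply Asymptotics.IsBigO.of_bound 1
    refine Eventually.of_forall fun n => ?_
    simp only [norm_pow, norm_one, mul_one, Real.norm_eq_abs, abs_of_pos hρ0]
    exact pow_le_one₀ hρ0.le hρ1.le
  obtain ⟨C, hC⟩ := hy
  induction g using MvPolynomial.induction_on with
  | C a =>
    simp only [eval_C, sub_self]
    exact Asymptotics.isBigO_zero _ _
  | add p q hp hq =>
    refine (hp.add hq).congr_left fun n => ?_
    simp only [map_add]; ring
  | mul_X p i hp =>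
    have h1 : (fun n => y n i) =O[atTop] (fun n => ρ ^ n) := by
      apply Asymptotics.IsBigO.of_bound C
      filter_upwards [hC] with n hn
      rw [norm_pow, Real.norm_eq_abs, abs_of_pos hρ0]
      exact hn i
    have h2 : (fun n => eval (y n) p) =O[atTop] (fun _ => (1 : ℝ)) := by
      have h3 : (fun _ : ℕ => eval (0 : σ → ℂ) p) =O[atTop] (fun _ => (1 : ℝ)) :=
        Asymptotics.isBigO_const_const _ one_ne_zero _
      refine ((hp.trans hρ).add h3).congr_left fun n => ?_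
      ring
    refine ((h2.mul h1).congr_left fun n => ?_).congr_right fun n => by simp
    simp only [map_mul, eval_X, Pi.zero_apply, mul_zero, sub_zero]

theorem tendsto_eval (y : ℕ → σ → ℂ) (ρ : ℝ) (hρ0 : 0 < ρ) (hρ1 : ρ < 1)
    (hy : ∃ C : ℝ, ∀ᶠ n in atTop, ∀ i, ‖y n i‖ ≤ C * ρ ^ n) (g : MvPolynomial σ ℂ) :
    Tendsto (fun n => eval (y n) g) atTop (𝓝 (eval 0 g)) := by
  have h1 : Tendsto (fun n => eval (y n) g - eval 0 g) atTop (𝓝 0) :=
    (bigO_eval y ρ hρ0 hρ1 hy g).trans_tendsto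
      (tendsto_pow_atTop_nhds_zero_of_lt_one hρ0.le hρ1)
  have h2 := h1.add_const (eval 0 g)
  simpa using h2

/-- the ideal of the origin -/
noncomputable abbrev M0 (σ : Type) : Ideal (MvPolynomial σ ℂ) := RingHom.ker (eval (0 : σ → ℂ))

instance : (M0 σ).IsPrime := RingHom.ker_isPrime _

/-- the local ring of the affine space at the origin -/
abbrev Rm (σ : Type) : Type := Localization.AtPrime (M0 σ)

theorem mem_pc (s : MvPolynomial σ ℂ) : s ∈ (M0 σ).primeCompl ↔ eval 0 s ≠ 0 := Iff.rfl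

/-- the germ of a polynomial along the orbit -/
noncomputable def phi0 (y : ℕ → σ → ℂ) : MvPolynomial σ ℂ →+* Germ (atTop : Filter ℕ) ℂ :=
  (Germ.coeRingHom atTop).comp (RingHom.pi fun n => eval (y n))

theorem phi0_apply (y : ℕ → σ → ℂ) (g : MvPolynomial σ ℂ) :
    phi0 y g = ((fun n => eval (y n) g : ℕ → ℂ) : Germ (atTop : Filter ℕ) ℂ) := rfl

/-- the residue map of the local ring -/
noncomputable def rs (σ : Type) : Rm σ →+* ℂ :=
  IsLocalization.lift (M := (M0 σ).primeCompl) (g := eval (0 : σ → ℂ))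
    (fun s => IsUnit.mk0 _ s.2)

theorem rs_alg (g : MvPolynomial σ ℂ) : rs σ (algebraMap _ _ g) = eval 0 g := by
  rw [rs, IsLocalization.lift_eq]

theorem unit_of_rs (a : Rm σ) (ha : rs σ a ≠ 0) : IsUnit a := by
  obtain ⟨⟨g, s⟩, hgs⟩ := IsLocalization.surj (M0 σ).primeCompl a
  simp only at hgs
  have h1 := congrArg (rs σ) hgs
  rw [map_mul, rs_alg, rs_alg] at h1
  have h2 : eval 0 g ≠ 0 := by
    rw [← h1]
    exact mul_ne_zero ha s.2
  have h3 : IsUnit (algebraMap (MvPolynomial σ ℂ) (Rm σ) g) :=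
    IsLocalization.map_units (Rm σ) (⟨g, h2⟩ : (M0 σ).primeCompl)
  rw [← hgs] at h3
  exact isUnit_of_mul_isUnit_left h3

/-- the shift of germs -/
noncomputable def shift : Germ (atTop : Filter ℕ) ℂ →+* Germ (atTop : Filter ℕ) ℂ where
  toFun f := f.compTendsto (fun n => n + 1) (tendsto_add_atTop_nat 1)
  map_one' := rfl
  map_zero' := rfl
  map_mul' f g := by
    induction f using Germ.inductionOn
    induction g using Germ.inductionOn
    rfl
  map_add' f g := by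
    induction f using Germ.inductionOn
    induction g using Germ.inductionOn
    rfl

theorem shift_coe (f : ℕ → ℂ) :
    shift (f : Germ (atTop : Filter ℕ) ℂ) = ((fun n => f (n + 1) : ℕ → ℂ) : Germ atTop ℂ) := rfl


/-- the class of the fraction -/
noncomputable def fr (g s : MvPolynomial σ ℂ) (hs : eval 0 s ≠ 0) : Rm σ :=
  IsLocalization.mk' (M := (M0 σ).primeCompl) (Rm σ) g ⟨s, hs⟩

theorem alg_mul_fr (g s : MvPolynomial σ ℂ) (hs : eval 0 s ≠ 0) :
    algebraMap _ (Rm σ) s * fr g s hs = algebraMap _ (Rm σ) g :=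
  IsLocalization.mk'_spec' (M := (M0 σ).primeCompl) (Rm σ) g ⟨s, hs⟩

theorem rs_fr (g s : MvPolynomial σ ℂ) (hs : eval 0 s ≠ 0) :
    rs σ (fr g s hs) = eval 0 g / eval 0 s := by
  have h1 := congrArg (rs σ) (alg_mul_fr g s hs)
  rw [map_mul, rs_alg, rs_alg] at h1
  rw [eq_div_iff hs, mul_comm, h1]

/-- the substitution of the map in polynomials -/
noncomputable def sub (P : σ → MvPolynomial σ ℂ) (Q : MvPolynomial σ ℂ) (hQ : eval 0 Q ≠ 0) :
    MvPolynomial σ ℂ →ₐ[ℂ] Rm σ := aeval fun i => fr (P i) Q hQ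

theorem rs_algebraMap (c : ℂ) : rs σ (algebraMap ℂ (Rm σ) c) = c := by
  rw [IsScalarTower.algebraMap_apply ℂ (MvPolynomial σ ℂ) (Rm σ), rs_alg]
  simp [MvPolynomial.algebraMap_eq]

theorem rs_sub (P : σ → MvPolynomial σ ℂ) (Q : MvPolynomial σ ℂ) (hQ : eval 0 Q ≠ 0)
    (hP : ∀ i, eval 0 (P i) = 0) (g : MvPolynomial σ ℂ) : rs σ (sub P Q hQ g) = eval 0 g := by
  have h : (rs σ).comp (sub P Q hQ : MvPolynomial σ ℂ →+* Rm σ) = eval 0 := by
    apply MvPolynomial.ringHom_ext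
    · intro c
      have h1 : (sub P Q hQ : MvPolynomial σ ℂ →+* Rm σ) (C c) = algebraMap ℂ (Rm σ) c := by
        simp [sub]
      rw [RingHom.comp_apply, h1, rs_algebraMap]
      simp
    · intro i
      have h1 : (sub P Q hQ : MvPolynomial σ ℂ →+* Rm σ) (X i) = fr (P i) Q hQ := by
        simp [sub]
      rw [RingHom.comp_apply, h1, rs_fr, hP]
      simp
  exact congrArg (fun f => f g) h

/-- the endomorphism of the local ring -/
noncomputable def TT (P : σ → MvPolynomial σ ℂ) (Q : MvPolynomial σ ℂ) (hQ : eval 0 Q ≠ 0)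
    (hP : ∀ i, eval 0 (P i) = 0) : Rm σ →ₐ[ℂ] Rm σ :=
  IsLocalization.liftAlgHom (M := (M0 σ).primeCompl) (f := sub P Q hQ)
    (fun s => unit_of_rs _ (by rw [rs_sub P Q hQ hP]; exact s.2))

theorem TT_alg (P : σ → MvPolynomial σ ℂ) (Q : MvPolynomial σ ℂ) (hQ : eval 0 Q ≠ 0)
    (hP : ∀ i, eval 0 (P i) = 0) (g : MvPolynomial σ ℂ) :
    TT P Q hQ hP (algebraMap _ (Rm σ) g) = sub P Q hQ g := by
  rw [TT, IsLocalization.liftAlgHom_apply, IsLocalization.lift_eq]
  rfl

theorem TT_X (P : σ → MvPolynomial σ ℂ) (Q : MvPolynomial σ ℂ) (hQ : eval 0 Q ≠ 0)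
    (hP : ∀ i, eval 0 (P i) = 0) (i : σ) :
    TT P Q hQ hP (algebraMap (MvPolynomial σ ℂ) (Rm σ) (X i)) = fr (P i) Q hQ := by
  rw [TT_alg]; simp [sub]

theorem rs_TT (P : σ → MvPolynomial σ ℂ) (Q : MvPolynomial σ ℂ) (hQ : eval 0 Q ≠ 0)
    (hP : ∀ i, eval 0 (P i) = 0) (a : Rm σ) : rs σ (TT P Q hQ hP a) = rs σ a := by
  have h : (rs σ).comp (TT P Q hQ hP : Rm σ →+* Rm σ) = rs σ := by
    apply IsLocalization.ringHom_ext (M0 σ).primeCompl
    apply RingHom.ext
    intro g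
    change rs σ (TT P Q hQ hP (algebraMap _ (Rm σ) g)) = rs σ (algebraMap _ (Rm σ) g)
    rw [TT_alg, rs_sub P Q hQ hP, rs_alg]
  exact congrArg (fun f => f a) h

section germ

variable (y : ℕ → σ → ℂ)

/-- eventually nonvanishing -/
theorem unit_phi0 (hlim : ∀ g : MvPolynomial σ ℂ, Tendsto (fun n => eval (y n) g) atTop (𝓝 (eval 0 g)))
    (s : MvPolynomial σ ℂ) (hs : eval 0 s ≠ 0) : IsUnit (phi0 y s) := by
  have h1 : ∀ᶠ n in atTop, eval (y n) s ≠ 0 := (hlim s).eventually_ne hs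
  rw [phi0_apply]
  refine IsUnit.of_mul_eq_one (((fun n => (eval (y n) s)⁻¹ : ℕ → ℂ) : Germ atTop ℂ)) ?_
  rw [← Germ.coe_mul, ← Germ.coe_one, Germ.coe_eq]
  filter_upwards [h1] with n hn
  simp only [Pi.mul_apply, Pi.one_apply]
  exact mul_inv_cancel₀ hn

/-- the evaluation along the orbit -/
noncomputable def phi
    (hlim : ∀ g : MvPolynomial σ ℂ, Tendsto (fun n => eval (y n) g) atTop (𝓝 (eval 0 g))) :
    Rm σ →+* Germ (atTop : Filter ℕ) ℂ :=
  IsLocalization.lift (M := (M0 σ).primeCompl) (g := phi0 y)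
    (fun s => unit_phi0 y hlim s s.2)

variable (hlim : ∀ g : MvPolynomial σ ℂ, Tendsto (fun n => eval (y n) g) atTop (𝓝 (eval 0 g)))

theorem phi_alg (g : MvPolynomial σ ℂ) : phi y hlim (algebraMap _ _ g) = phi0 y g := by
  rw [phi, IsLocalization.lift_eq]

theorem phi_TT (P : σ → MvPolynomial σ ℂ) (Q : MvPolynomial σ ℂ) (hQ : eval 0 Q ≠ 0)
    (hP : ∀ i, eval 0 (P i) = 0)
    (hstep : ∀ᶠ n in atTop, ∀ i, eval (y n) Q * y (n + 1) i = eval (y n) (P i)) (a : Rm σ) :
    phi y hlim (TT P Q hQ hP a) = shift (phi y hlim a) := by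
  have h : (phi y hlim).comp (TT P Q hQ hP : Rm σ →+* Rm σ) = shift.comp (phi y hlim) := by
    apply IsLocalization.ringHom_ext (M0 σ).primeCompl
    apply MvPolynomial.ringHom_ext
    · intro c
      have h1 : TT P Q hQ hP (algebraMap (MvPolynomial σ ℂ) (Rm σ) (C c)) =
          algebraMap (MvPolynomial σ ℂ) (Rm σ) (C c) := by
        rw [TT_alg]
        simp only [sub, aeval_C]
        rw [IsScalarTower.algebraMap_apply ℂ (MvPolynomial σ ℂ) (Rm σ)]
        rfl
      simp only [RingHom.comp_apply, RingHom.coe_coe]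
      rw [h1, phi_alg, phi0_apply, shift_coe]
      simp
    · intro i
      simp only [RingHom.comp_apply, RingHom.coe_coe]
      have h2 := congrArg (phi y hlim) (alg_mul_fr (P i) Q hQ)
      rw [map_mul, phi_alg, phi_alg] at h2
      rw [TT_X, phi_alg]
      have hu := unit_phi0 y hlim Q hQ
      apply hu.mul_left_cancel
      rw [h2]
      rw [phi0_apply, phi0_apply, phi0_apply, shift_coe, ← Germ.coe_mul, Germ.coe_eq]
      filter_upwards [hstep] with n hn
      simp only [Pi.mul_apply, eval_X]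
      exact (hn i).symm
  exact congrArg (fun f => f a) h

/-- the local ring of the orbit closure -/
def OO : Type := Rm σ ⧸ RingHom.ker (phi y hlim)

noncomputable instance : CommRing (OO y hlim) :=
  inferInstanceAs (CommRing (Rm σ ⧸ RingHom.ker (phi y hlim)))

noncomputable instance : Algebra ℂ (OO y hlim) :=
  inferInstanceAs (Algebra ℂ (Rm σ ⧸ RingHom.ker (phi y hlim)))

/-- the projection -/
noncomputable def mkO : Rm σ →ₐ[ℂ] OO y hlim := Ideal.Quotient.mkₐ ℂ (RingHom.ker (phi y hlim))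

theorem mkO_surj : Function.Surjective (mkO y hlim) := Ideal.Quotient.mk_surjective

/-- evaluation on the quotient -/
noncomputable def ph : OO y hlim →+* Germ (atTop : Filter ℕ) ℂ := RingHom.kerLift (phi y hlim)

theorem ph_mk (a : Rm σ) : ph y hlim (mkO y hlim a) = phi y hlim a := rfl

theorem ph_inj : Function.Injective (ph y hlim) := RingHom.kerLift_injective _

theorem rs_of_phi (a : Rm σ) (ha : phi y hlim a = 0) : rs σ a = 0 := by
  by_contra h
  have h1 := (unit_of_rs a h).map (phi y hlim)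
  rw [ha] at h1
  exact not_isUnit_zero h1

/-- the residue map of the quotient -/
noncomputable def rO : OO y hlim →+* ℂ :=
  Ideal.Quotient.lift (RingHom.ker (phi y hlim)) (rs σ) (fun a ha => rs_of_phi y hlim a ha)

theorem rO_mk (a : Rm σ) : rO y hlim (mkO y hlim a) = rs σ a := rfl

/-- the endomorphism of the quotient -/
noncomputable def TO (P : σ → MvPolynomial σ ℂ) (Q : MvPolynomial σ ℂ) (hQ : eval 0 Q ≠ 0)
    (hP : ∀ i, eval 0 (P i) = 0)
    (hstep : ∀ᶠ n in atTop, ∀ i, eval (y n) Q * y (n + 1) i = eval (y n) (P i)) :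
    OO y hlim →ₐ[ℂ] OO y hlim :=
  Ideal.quotientMapₐ (RingHom.ker (phi y hlim)) (TT P Q hQ hP) (by
    intro a ha
    rw [RingHom.mem_ker] at ha
    rw [Ideal.mem_comap, RingHom.mem_ker]
    change phi y hlim (TT P Q hQ hP a) = 0
    rw [phi_TT y hlim P Q hQ hP hstep, ha, map_zero])

theorem TO_mk (P : σ → MvPolynomial σ ℂ) (Q : MvPolynomial σ ℂ) (hQ : eval 0 Q ≠ 0)
    (hP : ∀ i, eval 0 (P i) = 0)
    (hstep : ∀ᶠ n in atTop, ∀ i, eval (y n) Q * y (n + 1) i = eval (y n) (P i)) (a : Rm σ) :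
    TO y hlim P Q hQ hP hstep (mkO y hlim a) = mkO y hlim (TT P Q hQ hP a) := rfl

instance : Nontrivial (OO y hlim) := by
  have : Nontrivial (Rm σ ⧸ RingHom.ker (phi y hlim)) := by
    apply Ideal.Quotient.nontrivial_iff.2
    exact RingHom.ker_ne_top _
  exact this

instance : IsLocalRing (OO y hlim) :=
  IsLocalRing.of_surjective' (mkO y hlim : Rm σ →+* OO y hlim) (mkO_surj y hlim)

instance [Finite σ] : IsNoetherianRing (Rm σ) :=
  IsLocalization.isNoetherianRing (M0 σ).primeCompl (Rm σ) inferInstance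

instance [Finite σ] : IsNoetherianRing (OO y hlim) :=
  isNoetherianRing_of_surjective (Rm σ) _ (mkO y hlim : Rm σ →+* OO y hlim) (mkO_surj y hlim)

theorem rO_alg (c : ℂ) : rO y hlim (algebraMap ℂ _ c) = c := by
  rw [← (mkO y hlim).commutes c, rO_mk, rs_algebraMap]

theorem mem_max (a : OO y hlim) : a ∈ maximalIdeal (OO y hlim) ↔ rO y hlim a = 0 := by
  have h1 : Function.Surjective (rO y hlim) := fun c => ⟨_, rO_alg y hlim c⟩
  have h3 : (RingHom.ker (rO y hlim)).IsMaximal := RingHom.ker_isMaximal_of_surjective _ h1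
  have h2 := IsLocalRing.eq_maximalIdeal h3
  rw [← h2, RingHom.mem_ker]

theorem rO_TO (P : σ → MvPolynomial σ ℂ) (Q : MvPolynomial σ ℂ) (hQ : eval 0 Q ≠ 0)
    (hP : ∀ i, eval 0 (P i) = 0)
    (hstep : ∀ᶠ n in atTop, ∀ i, eval (y n) Q * y (n + 1) i = eval (y n) (P i))
    (a : OO y hlim) : rO y hlim (TO y hlim P Q hQ hP hstep a) = rO y hlim a := by
  obtain ⟨a, rfl⟩ := mkO_surj y hlim a
  rw [TO_mk, rO_mk, rO_mk, rs_TT]

theorem ph_TO (P : σ → MvPolynomial σ ℂ) (Q : MvPolynomial σ ℂ) (hQ : eval 0 Q ≠ 0)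
    (hP : ∀ i, eval 0 (P i) = 0)
    (hstep : ∀ᶠ n in atTop, ∀ i, eval (y n) Q * y (n + 1) i = eval (y n) (P i))
    (a : OO y hlim) : ph y hlim (TO y hlim P Q hQ hP hstep a) = shift (ph y hlim a) := by
  obtain ⟨a, rfl⟩ := mkO_surj y hlim a
  rw [TO_mk, ph_mk, ph_mk, phi_TT y hlim P Q hQ hP hstep]

/-- a representative of the germ -/
noncomputable def ee (a : OO y hlim) : ℕ → ℂ := Quotient.out (ph y hlim a)

theorem ee_coe (a : OO y hlim) : ((ee y hlim a : ℕ → ℂ) : Germ (atTop : Filter ℕ) ℂ) =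
    ph y hlim a := Quotient.out_eq _

/-- the inclusion of polynomials -/
noncomputable def io : MvPolynomial σ ℂ →ₐ[ℂ] OO y hlim :=
  (mkO y hlim).comp (IsScalarTower.toAlgHom ℂ (MvPolynomial σ ℂ) (Rm σ))

theorem io_apply (g : MvPolynomial σ ℂ) : io y hlim g = mkO y hlim (algebraMap _ _ g) := rfl

theorem ph_io (g : MvPolynomial σ ℂ) : ph y hlim (io y hlim g) = phi0 y g := by
  rw [io_apply, ph_mk, phi_alg]

theorem rO_io (g : MvPolynomial σ ℂ) : rO y hlim (io y hlim g) = eval 0 g := by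
  rw [io_apply, rO_mk, rs_alg]

theorem ee_io (g : MvPolynomial σ ℂ) :
    ∀ᶠ n in atTop, ee y hlim (io y hlim g) n = eval (y n) g := by
  have h := ee_coe y hlim (io y hlim g)
  rw [ph_io, phi0_apply, Germ.coe_eq] at h
  exact h

theorem frac (a : OO y hlim) : ∃ g s : MvPolynomial σ ℂ, eval 0 s ≠ 0 ∧
    io y hlim s * a = io y hlim g := by
  obtain ⟨a, rfl⟩ := mkO_surj y hlim a
  obtain ⟨⟨g, s⟩, hgs⟩ := IsLocalization.surj (M0 σ).primeCompl a
  refine ⟨g, s, s.2, ?_⟩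
  rw [io_apply, io_apply, ← map_mul, ← hgs, mul_comm]

theorem ee_mul (a b : OO y hlim) :
    ∀ᶠ n in atTop, ee y hlim (a * b) n = ee y hlim a n * ee y hlim b n := by
  have h := ee_coe y hlim (a * b)
  rw [map_mul, ← ee_coe, ← ee_coe, ← Germ.coe_mul, Germ.coe_eq] at h
  exact h

theorem ee_add (a b : OO y hlim) :
    ∀ᶠ n in atTop, ee y hlim (a + b) n = ee y hlim a n + ee y hlim b n := by
  have h := ee_coe y hlim (a + b)
  rw [map_add, ← ee_coe, ← ee_coe, ← Germ.coe_add, Germ.coe_eq] at h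
  exact h

theorem ee_shift (P : σ → MvPolynomial σ ℂ) (Q : MvPolynomial σ ℂ) (hQ : eval 0 Q ≠ 0)
    (hP : ∀ i, eval 0 (P i) = 0)
    (hstep : ∀ᶠ n in atTop, ∀ i, eval (y n) Q * y (n + 1) i = eval (y n) (P i))
    (a : OO y hlim) :
    ∀ᶠ n in atTop, ee y hlim (TO y hlim P Q hQ hP hstep a) n = ee y hlim a (n + 1) := by
  have h := ee_coe y hlim (TO y hlim P Q hQ hP hstep a)
  rw [ph_TO, ← ee_coe, shift_coe, Germ.coe_eq] at h
  exact h

theorem ee_alg (c : ℂ) : ∀ᶠ n in atTop, ee y hlim (algebraMap ℂ _ c) n = c := by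
  have h := ee_io y hlim (C c)
  have h1 : io y hlim (C c) = algebraMap ℂ _ c := (io y hlim).commutes c
  rw [h1] at h
  simpa using h

end germ

end

end LOC

theorem exists_sys {σ : Type} [Fintype σ] (y : ℕ → σ → ℂ) (ρ : ℝ) (hρ0 : 0 < ρ) (hρ1 : ρ < 1)
    (hy : ∃ C : ℝ, ∀ᶠ n in atTop, ∀ i, ‖y n i‖ ≤ C * ρ ^ n)
    (P : σ → MvPolynomial σ ℂ) (Q : MvPolynomial σ ℂ) (hQ : eval 0 Q ≠ 0)
    (hP : ∀ i, eval 0 (P i) = 0)
    (hstep : ∀ᶠ n in atTop, ∀ i, eval (y n) Q * y (n + 1) i = eval (y n) (P i)) :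
    ∃ (O : Type) (_ : CommRing O) (_ : IsLocalRing O) (_ : IsNoetherianRing O)
      (_ : Algebra ℂ O) (S : Sys O) (ι : MvPolynomial σ ℂ →ₐ[ℂ] O),
      (∀ g, ι g ∈ maximalIdeal O ↔ eval 0 g = 0) ∧
      (∀ g, ∀ᶠ n in atTop, S.e (ι g) n = eval (y n) g) ∧
      (∀ a, (∀ᶠ n in atTop, S.e a n = 0) → a = 0) ∧
      (∀ a, ∃ g s, eval 0 s ≠ 0 ∧ ι s * a = ι g) ∧
      (∀ i, ι Q * S.T (ι (X i)) = ι (P i)) := by
  have hlim := LOC.tendsto_eval y ρ hρ0 hρ1 hy
  have hsmall : ∀ a ∈ maximalIdeal (LOC.OO y hlim), BO ρ (LOC.ee y hlim a) := by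
    intro a ha
    obtain ⟨g, s, hs, hgs⟩ := LOC.frac y hlim a
    have h0 : eval 0 g = 0 := by
      have h1 := congrArg (LOC.rO y hlim) hgs
      rw [map_mul, (LOC.mem_max y hlim a).1 ha, mul_zero, LOC.rO_io] at h1
      exact h1.symm
    have h2 := LOC.bigO_eval y ρ hρ0 hρ1 hy g
    rw [h0] at h2
    simp only [sub_zero] at h2
    have h3 : (fun n => (eval (y n) s)⁻¹) =O[atTop] (fun _ => (1 : ℝ)) :=
      ((hlim s).inv₀ hs).isBigO_one ℝ
    have h4 : (fun n => LOC.ee y hlim a n) =O[atTop] (fun n => ρ ^ n) := by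
      have h5 := h3.mul h2
      simp only [one_mul] at h5
      refine h5.congr' ?_ EventuallyEq.rfl
      have h6 := LOC.ee_mul y hlim (LOC.io y hlim s) a
      rw [hgs] at h6
      filter_upwards [h6, LOC.ee_io y hlim s, LOC.ee_io y hlim g,
        (hlim s).eventually_ne hs] with n h7 h8 h9 h10
      rw [h8, h9] at h7
      rw [h7]
      field_simp
    obtain ⟨c, hc⟩ := Asymptotics.isBigO_iff.1 h4
    refine ⟨c, ?_⟩
    filter_upwards [hc] with n hn
    rwa [norm_pow, Real.norm_eq_abs, abs_of_pos hρ0] at hn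
  refine ⟨LOC.OO y hlim, inferInstance, inferInstance, inferInstance, inferInstance,
    { T := LOC.TO y hlim P Q hQ hP hstep
      e := LOC.ee y hlim
      ρ := ρ
      ρ_pos := hρ0
      ρ_lt := hρ1
      T_mem := fun a ha => by
        rw [LOC.mem_max] at ha ⊢
        rw [LOC.rO_TO, ha]
      res := fun a => ⟨LOC.rO y hlim a, by
        rw [LOC.mem_max, map_sub, LOC.rO_alg, sub_self]⟩
      add := LOC.ee_add y hlim
      mul := LOC.ee_mul y hlim
      alg := LOC.ee_alg y hlim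
      shift := LOC.ee_shift y hlim P Q hQ hP hstep
      small := hsmall }, LOC.io y hlim, ?_, ?_, ?_, ?_, ?_⟩
  · intro g
    rw [LOC.mem_max, LOC.rO_io]
  · exact LOC.ee_io y hlim
  · intro a ha
    apply LOC.ph_inj y hlim
    rw [map_zero, ← LOC.ee_coe, ← Germ.coe_zero, Germ.coe_eq]
    exact ha
  · exact LOC.frac y hlim
  · intro i
    change LOC.io y hlim Q * LOC.TO y hlim P Q hQ hP hstep (LOC.io y hlim (X i)) =
      LOC.io y hlim (P i)
    rw [LOC.io_apply, LOC.io_apply, LOC.io_apply, LOC.TO_mk, LOC.TT_X, ← map_mul,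
      LOC.alg_mul_fr]

end Pool.Agent.Helper52.AT
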